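import Pool.Agent.H.MP_54aac5_co.A

namespace Pool.Agent.Results.MP_54aac5_co.Yes

open Classical

variable {W : Type}

/-- degree of a vertex -/
noncomputable def deg (S : SimpleGraph W) (w : W) : ℕ := (S.neighborSet w).ncard

/-- `G` has a hamiltonian cycle (so `K_1` and `K_2` are not hamiltonian) -/
def Ham (G : SimpleGraph W) : Prop := ∃ (a : W) (c : G.Walk a a), c.IsHamiltonianCycle

/-- number of leaves -/
noncomputable def leaves (S : SimpleGraph W) : ℕ := {w | deg S w = 1}.ncard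

/-- ml-subgraphs: hamiltonian cycles if `G` is hamiltonian, otherwise spanning trees with the
least number of leaves -/
def IsML (G S : SimpleGraph W) : Prop :=
  (Ham G ∧ ∃ (a : W) (c : G.Walk a a), c.IsHamiltonianCycle ∧ S = c.toSubgraph.spanningCoe) ∨
  (¬ Ham G ∧ S ≤ G ∧ S.IsTree ∧ ∀ T : SimpleGraph W, T ≤ G → T.IsTree → leaves S ≤ leaves T)

/-- transition cost -/
noncomputable def tau (S : SimpleGraph W) (v : W) (Sv : SimpleGraph ({v}ᶜ : Set W)) : ℕ :=
  {w : ({v}ᶜ : Set W) | deg S w.val ≠ deg Sv w}.ncard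

noncomputable def phiS (G S : SimpleGraph W) : ℕ :=
  ⨆ v : W, sInf {t | ∃ Sv, IsML (G.induce {v}ᶜ) Sv ∧ t = tau S v Sv}

/-- the fault cost -/
noncomputable def faultCost (G : SimpleGraph W) : ℕ := sInf {k | ∃ S, IsML G S ∧ k = phiS G S}

def TwoConnected (G : SimpleGraph W) : Prop :=
  3 ≤ Nat.card W ∧ G.Connected ∧ ∀ v : W, (G.induce {v}ᶜ).Connected

open Pool.Agent.H.MP_54aac5_co

theorem ham_spec {G : SimpleGraph W} (h : Ham G) :
    ∃ (a : W) (c : G.Walk a a), c.IsCycle ∧ ∀ y, y ∈ c.support := by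
  obtain ⟨a, c, hc⟩ := h
  exact ⟨a, c, hc.isCycle, hc.mem_support⟩

theorem notHam : ¬ Ham G := by
  intro h
  obtain ⟨a, c, hc, hs⟩ := ham_spec h
  exact noCyc 0 a c hc fun y _ => hs y

theorem notHamV (v : V) : ¬ Ham (G.induce {v}ᶜ) := by
  intro h
  obtain ⟨a, c, hc, hs⟩ := ham_spec h
  refine noCyc v _ (c.map (SimpleGraph.Embedding.induce {v}ᶜ).toHom)
    (hc.map Subtype.val_injective) fun y hy => ?_
  rw [SimpleGraph.Walk.support_map]
  exact List.mem_map.mpr ⟨⟨y, hy⟩, hs _, rfl⟩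

instance nt (v : V) : Nontrivial ({v}ᶜ : Set V) := by
  refine ⟨⟨v + 1, ?_⟩, ⟨v + 2, ?_⟩, ?_⟩
  · simp
  · simp only [Set.mem_compl_iff, Set.mem_singleton_iff, add_eq_left]; decide
  · simp only [ne_eq, Subtype.mk.injEq, add_right_inj]; decide

theorem ml0 : IsML G S0 :=
  Or.inr ⟨notHam, S0_spec.1, S0_spec.2.1, fun T _ hT =>
    le_trans (le_of_eq S0_spec.2.2.2) (two_leaves T hT)⟩

theorem mlV (v : V) : IsML (G.induce {v}ᶜ) (Sv v) :=
  Or.inr ⟨notHamV v, (Sv_spec v).1, (Sv_spec v).2.1, fun T _ hT =>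
    le_trans (le_of_eq (Sv_spec v).2.2.2) (two_leaves T hT)⟩

theorem upper : phiS G S0 ≤ 1 := by
  apply ciSup_le
  intro v
  refine le_trans (Nat.sInf_le ⟨Sv v, mlV v, rfl⟩) ?_
  unfold tau
  rw [Set.ncard_le_one]
  have key : ∀ w : ({v}ᶜ : Set V), deg S0 w.val ≠ deg (Sv v) w → w.val.val = ex v.val := by
    intro w hw
    unfold deg at hw
    rw [S0_spec.2.2.1, (Sv_spec v).2.2.1] at hw
    rcases hE v.val v.2 w.val.val w.val.2 with h | h | h
    · exact absurd (Fin.ext h) w.2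
    · exact h
    · exact absurd h hw
  intro a ha b hb
  exact Subtype.ext (Fin.ext ((key a ha).trans (key b hb).symm))

theorem lower (S : SimpleGraph V) (hS : IsML G S) : 1 ≤ phiS G S := by
  rcases hS with ⟨h, _⟩ | ⟨_, _, hT, hmin⟩
  · exact absurd h notHam
  have h1 : leaves S ≤ 2 := le_trans (hmin S0 S0_spec.1 S0_spec.2.1) (le_of_eq S0_spec.2.2.2)
  have h2 : 2 ≤ leaves S := two_leaves S hT
  obtain ⟨p, hp⟩ : {w | deg S w = 1}.Nonempty := Set.nonempty_of_ncard_ne_zero (by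
    unfold leaves at h2; omega)
  refine le_trans ?_ (le_ciSup (Finite.bddAbove_range _) p)
  have hne : {t | ∃ Sv, IsML (G.induce {p}ᶜ) Sv ∧ t = tau S p Sv}.Nonempty :=
    ⟨_, Sv p, mlV p, rfl⟩
  obtain ⟨T, hT', e⟩ := Nat.sInf_mem hne
  rw [e]
  rcases hT' with ⟨h, _⟩ | ⟨_, _, hT', _⟩
  · exact absurd h (notHamV p)
  have h3 := two_leaves T hT'
  by_contra hlt
  have h0 : {w : ({p}ᶜ : Set V) | deg S w.val ≠ deg T w} = ∅ :=
    (Set.ncard_eq_zero (Set.toFinite _)).mp (by unfold tau at hlt; omega)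
  have hsub : Subtype.val '' {w : ({p}ᶜ : Set V) | (T.neighborSet w).ncard = 1} ⊆
      {w | deg S w = 1} \ {p} := by
    rintro _ ⟨w, hw, rfl⟩
    refine ⟨?_, w.2⟩
    have : w ∉ {w : ({p}ᶜ : Set V) | deg S w.val ≠ deg T w} := by rw [h0]; simp
    simp only [Set.mem_ofPred_eq, ne_eq, not_not] at this
    exact this.trans hw
  have h4 := Set.ncard_le_ncard hsub
  rw [Set.ncard_image_of_injective _ Subtype.val_injective] at h4
  have h5 := Set.ncard_sdiff_singleton_add_one hp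
  unfold leaves at h1
  omega

theorem result : ∃ (n : ℕ) (G : SimpleGraph (Fin n)),
    (∀ v, deg G v = 3) ∧ TwoConnected G ∧ faultCost G = 1 := by
  refine ⟨32, G, cubic, ⟨by simp, S0_spec.2.1.connected.mono S0_spec.1,
    fun v => (Sv_spec v).2.1.connected.mono (Sv_spec v).1⟩, le_antisymm ?_ ?_⟩
  · exact le_trans (Nat.sInf_le ⟨S0, ml0, rfl⟩) upper
  · obtain ⟨S, hS, e⟩ := Nat.sInf_mem (s := {k | ∃ S, IsML G S ∧ k = phiS G S}) ⟨_, S0, ml0, rfl⟩
    unfold faultCost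
    rw [e]
    exact lower S hS

end Pool.Agent.Results.MP_54aac5_co.Yes
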